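import Mathlib

/-!
A linear function that is often close to an integer has a slope close to a rational number.
-/

open Finset

namespace Pool.Agent.MP_e23604_nt.U.AJ

theorem card_diam (T : Finset ℤ) {D : ℝ} (hD : 0 ≤ D) (h : ∀ x ∈ T, ∀ y ∈ T, (x : ℝ) - y ≤ D) :
    (T.card : ℝ) ≤ D + 1 := by
  rcases T.eq_empty_or_nonempty with rfl | hT
  · simp only [card_empty, Nat.cast_zero]
    linarith
  have h1 : T.card ≤ (Icc (T.min' hT) (T.max' hT)).card :=
    card_le_card fun x hx => mem_Icc.2 ⟨T.min'_le x hx, T.le_max' x hx⟩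
  have h2 := h _ (T.max'_mem hT) _ (T.min'_mem hT)
  have h3 : (T.card : ℤ) ≤ T.max' hT + 1 - T.min' hT := by
    have := T.min'_le_max' hT
    rw [Int.card_Icc] at h1
    omega
  have h4 : (T.card : ℝ) ≤ T.max' hT + 1 - T.min' hT := by exact_mod_cast h3
  linarith

theorem card_near (T : Finset ℤ) {θ β ε L : ℝ} (h0 : θ ≠ 0) (h1 : |θ| ≤ 2 * ε) (h2 : ε ≤ 1 / 2)
    (hL : 0 ≤ L) (hT : ∀ x ∈ T, ∀ y ∈ T, (x : ℝ) - y ≤ L)
    (h : ∀ k ∈ T, ∃ z : ℤ, |θ * k + β - z| ≤ ε) : (T.card : ℝ) ≤ 4 * ε * L + 8 * ε / |θ| := by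
  choose! z hz using h
  have p : 0 < |θ| := abs_pos.2 h0
  have e0 : 0 < ε := by linarith
  have a1 : ((T.image z).card : ℝ) ≤ |θ| * L + 2 := by
    have := card_diam (T.image z) (D := |θ| * L + 1) (by positivity) fun x hx y hy => by
      obtain ⟨k, hk, rfl⟩ := mem_image.1 hx
      obtain ⟨l, hl, rfl⟩ := mem_image.1 hy
      have b1 := abs_le.1 (hz k hk)
      have b2 := abs_le.1 (hz l hl)
      have b3 : θ * (k - l) ≤ |θ| * L := (le_abs_self _).trans (by
        rw [abs_mul]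
        exact mul_le_mul_of_nonneg_left (abs_le.2 ⟨by linarith [hT l hl k hk], hT k hk l hl⟩) p.le)
      linarith [b1.1, b2.2]
    linarith
  have a2 : ∀ w ∈ T.image z, ((T.filter fun k => z k = w).card : ℝ) ≤ 4 * ε / |θ| := fun w _ => by
    have := card_diam (T.filter fun k => z k = w) (D := 2 * ε / |θ|) (by positivity)
      fun x hx y hy => by
        obtain ⟨hx, ex⟩ := mem_filter.1 hx
        obtain ⟨hy, ey⟩ := mem_filter.1 hy
        have b1 := abs_le.1 (hz x hx)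
        have b2 := abs_le.1 (hz y hy)
        rw [ex] at b1
        rw [ey] at b2
        refine (le_abs_self _).trans ?_
        rw [le_div_iff₀ p, ← abs_mul, abs_le]
        constructor <;> nlinarith [b1.1, b1.2, b2.1, b2.2]
    have b4 : 1 ≤ 2 * ε / |θ| := (one_le_div p).2 h1
    have b5 : 4 * ε / |θ| = 2 * ε / |θ| + 2 * ε / |θ| := by ring
    linarith
  rw [card_eq_sum_card_image z T, Nat.cast_sum]
  refine (sum_le_card_nsmul _ _ _ a2).trans ?_
  rw [nsmul_eq_mul]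
  refine (mul_le_mul_of_nonneg_right a1 (by positivity)).trans (le_of_eq ?_)
  field_simp
  ring

theorem vino (S : Finset ℤ) {a : ℤ} {N α β ε δ : ℝ} (hδ : 0 < δ) (hN : 2 < δ * N)
    (hε : ε ≤ δ / 8) (hδ' : δ ≤ 1) (hS : ∀ n ∈ S, a ≤ n ∧ (n : ℝ) - a ≤ N) (hc : δ * N ≤ S.card)
    (h : ∀ n ∈ S, ∃ z : ℤ, |α * n + β - z| ≤ ε) :
    ∃ q : ℕ, 1 ≤ q ∧ (q : ℝ) ≤ 2 / δ ∧ ∃ z : ℤ, |q * α - z| ≤ 32 * ε / (δ ^ 2 * N) := by
  have N0 : 0 < N := (mul_pos_iff_of_pos_left hδ).1 (by linarith)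
  obtain ⟨L, L1, L2⟩ : ∃ L : ℕ, 2 / δ ≤ L ∧ (L : ℝ) < 2 / δ + 1 :=
    ⟨⌈2 / δ⌉₊, Nat.le_ceil _, Nat.ceil_lt_add_one (by positivity)⟩
  have L0 : (0 : ℝ) < L := lt_of_lt_of_le (by positivity) L1
  have L0' : (0 : ℤ) < L := by exact_mod_cast L0
  obtain ⟨n, hn, n', hn', hne, e⟩ : ∃ n ∈ S, ∃ n' ∈ S, n ≠ n' ∧ (n - a) / L = (n' - a) / L := by
    refine exists_ne_map_eq_of_card_lt_of_maps_to (t := S.image fun n => (n - a) / L) ?_
      fun n hn => mem_image_of_mem _ hn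
    have := card_diam (S.image fun n => (n - a) / L) (D := δ * N / 2) (by positivity)
      fun x hx y hy => by
        obtain ⟨k, hk, rfl⟩ := mem_image.1 hx
        obtain ⟨l, hl, rfl⟩ := mem_image.1 hy
        have b1 : (0 : ℝ) ≤ ((l - a) / L : ℤ) := by
          exact_mod_cast Int.ediv_nonneg (sub_nonneg.2 (hS l hl).1) L0'.le
        have b2 : (((k - a) / L : ℤ) : ℝ) * L ≤ k - a := by
          exact_mod_cast Int.ediv_mul_le (k - a) L0'.ne'
        have b3 : (((k - a) / L : ℤ) : ℝ) ≤ N / L := by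
          rw [le_div_iff₀ L0]
          linarith [(hS k hk).2]
        have b4 : N / L ≤ N / (2 / δ) := div_le_div_of_nonneg_left N0.le (by positivity) L1
        have b5 : N / (2 / δ) = δ * N / 2 := by field_simp
        linarith
    have : ((S.image fun n => (n - a) / L).card : ℝ) < S.card := by linarith
    exact_mod_cast this
  wlog hlt : n < n' generalizing n n'
  · exact this n' hn' n hn hne.symm e.symm (by omega)
  obtain ⟨q, hq⟩ : ∃ q : ℕ, n' = n + q := ⟨(n' - n).toNat, by omega⟩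
  have q1 : 1 ≤ q := by omega
  have q2 : (q : ℤ) + 1 ≤ L := by
    have b1 := Int.emod_add_mul_ediv (n - a) L
    have b2 := Int.emod_add_mul_ediv (n' - a) L
    have b3 := Int.emod_nonneg (n - a) L0'.ne'
    have b4 := Int.emod_lt_of_pos (n' - a) L0'
    rw [e] at b1
    omega
  have q3 : (q : ℝ) ≤ 2 / δ := by
    have : (q : ℝ) + 1 ≤ L := by exact_mod_cast q2
    linarith
  have q0 : (0 : ℝ) < q := by exact_mod_cast q1
  have q0' : (0 : ℤ) < q := by exact_mod_cast q1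
  obtain ⟨z, hz⟩ := h n hn
  obtain ⟨z', hz'⟩ := h n' hn'
  have e0 : 0 ≤ ε := (abs_nonneg _).trans hz
  refine ⟨q, q1, q3, z' - z, ?_⟩
  obtain ⟨θ, hθ⟩ : ∃ θ : ℝ, θ = q * α - (z' - z : ℤ) := ⟨_, rfl⟩
  rw [← hθ]
  have t1 : |θ| ≤ 2 * ε := by
    have b1 := abs_le.1 hz
    have b2 := abs_le.1 hz'
    rw [hq] at b2
    rw [hθ, abs_le]
    push_cast at b2 ⊢
    constructor <;> linarith [b1.1, b1.2, b2.1, b2.2]
  by_cases t0 : θ = 0
  · rw [t0, abs_zero]
    positivity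
  have p : 0 < |θ| := abs_pos.2 t0
  have a2 : ∀ r ∈ Ico (0 : ℤ) q, ((S.filter fun n => n % q = r).card : ℝ) ≤
      4 * ε * (N / q) + 8 * ε / |θ| := fun r _ => by
    have d : ∀ n ∈ S.filter fun n => n % q = r, n = r + q * (n / q) := fun n hn => by
      rw [← (mem_filter.1 hn).2, Int.emod_add_mul_ediv]
    rw [← card_image_of_injOn (f := fun n => n / (q : ℤ)) fun x hx y hy e => by
      rw [d x hx, d y hy, show x / (q : ℤ) = y / q from e]]
    refine card_near _ (β := α * r + β) t0 t1 (by linarith) (by positivity) (fun x hx y hy => ?_)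
      fun k hk => ?_
    · obtain ⟨k, hk, rfl⟩ := mem_image.1 hx
      obtain ⟨l, hl, rfl⟩ := mem_image.1 hy
      have b1 : (k : ℝ) = r + q * (k / q : ℤ) := by exact_mod_cast d k hk
      have b2 : (l : ℝ) = r + q * (l / q : ℤ) := by exact_mod_cast d l hl
      have b3 : (a : ℝ) ≤ l := by exact_mod_cast (hS l (mem_filter.1 hl).1).1
      rw [le_div_iff₀ q0]
      linarith [(hS k (mem_filter.1 hk).1).2]
    · obtain ⟨m, hm, rfl⟩ := mem_image.1 hk
      obtain ⟨w, hw⟩ := h m (mem_filter.1 hm).1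
      have b1 : (m : ℝ) = r + q * (m / q : ℤ) := by exact_mod_cast d m hm
      refine ⟨w - (z' - z) * (m / q), ?_⟩
      rw [hθ]
      rw [b1] at hw
      push_cast
      convert hw using 2
      ring
  have a3 : (S.card : ℝ) ≤ q * (4 * ε * (N / q) + 8 * ε / |θ|) := by
    rw [card_eq_sum_card_fiberwise (f := fun n => n % (q : ℤ)) (t := Ico (0 : ℤ) q) fun n _ =>
      mem_Ico.2 ⟨Int.emod_nonneg _ q0'.ne', Int.emod_lt_of_pos _ q0'⟩, Nat.cast_sum]
    refine (sum_le_card_nsmul _ _ _ a2).trans (le_of_eq ?_)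
    simp [mul_add]
  have a4 : (q : ℝ) * (4 * ε * (N / q) + 8 * ε / |θ|) = 4 * ε * N + q * (8 * ε / |θ|) := by
    field_simp
  have a5 : (q : ℝ) * (8 * ε / |θ|) ≤ 2 / δ * (8 * ε / |θ|) :=
    mul_le_mul_of_nonneg_right q3 (by positivity)
  have a6 : δ * N / 2 ≤ 2 / δ * (8 * ε / |θ|) := by nlinarith
  rw [le_div_iff₀ (by positivity)]
  rw [div_mul_div_comm, div_le_div_iff₀ two_pos (by positivity)] at a6
  nlinarith

end Pool.Agent.MP_e23604_nt.U.AJ
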