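import Pool.Agent.MP_e23604_nt.U.BDefs

/-!
A vector outside the fixed kernel is orthogonal to the random border at three sites at most.
-/

open Finset

noncomputable section

namespace Pool.Agent.MP_e23604_nt.U.Bm

open P (sy ep xx chi EP PP Mod FFp NS star)

theorem xDet_add (u v w : F12) : dot u (v + w) = dot u v + dot u w := by
  simp only [dot, Pi.add_apply, mul_add, sum_add_distrib]

/-- The number of sites, as a sum of explicit indicator values. -/
def xDet_cnt (v : F12) : ℕ :=
  ((List.finRange 12).filter fun σ => (List.finRange 5).all fun i =>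
    decide ((List.ofFn fun τ : Fin 12 => gen σ i τ * v τ).sum = 0)).length

def xDet_B : List (ZMod 2) := [0, 1]

theorem xDet_mem : ∀ a : ZMod 2, a ∈ xDet_B := by decide

theorem xDet_bool : (xDet_B.all fun a => xDet_B.all fun b => xDet_B.all fun c =>
    xDet_B.all fun d => xDet_B.all fun e => xDet_B.all fun f => xDet_B.all fun g =>
    xDet_B.all fun h =>
      decide ((a = 0 ∧ b = 0 ∧ c = 0 ∧ d = 0 ∧ e = 0 ∧ f = 0 ∧ g = 0 ∧ h = 0) ∨
        xDet_cnt ![a, b, c, d, e, 0, 0, 0, f, g, h, 0] ≤ 3)) = true := by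
  decide +kernel

theorem xDet_fin (a b c d e f g h : ZMod 2) :
    (a = 0 ∧ b = 0 ∧ c = 0 ∧ d = 0 ∧ e = 0 ∧ f = 0 ∧ g = 0 ∧ h = 0) ∨
      xDet_cnt ![a, b, c, d, e, 0, 0, 0, f, g, h, 0] ≤ 3 := by
  have h0 := xDet_bool
  simp only [List.all_eq_true, decide_eq_true_eq] at h0
  exact h0 a (xDet_mem a) b (xDet_mem b) c (xDet_mem c) d (xDet_mem d) e (xDet_mem e)
    f (xDet_mem f) g (xDet_mem g) h (xDet_mem h)

open scoped Classical

theorem xDet_card (v : F12) : (univ.filter fun σ => Det σ v).card = xDet_cnt v := by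
  unfold xDet_cnt
  rw [← List.toFinset_card_of_nodup ((List.nodup_finRange 12).filter _)]
  congr 1
  ext σ
  rw [Finset.mem_filter]
  simp only [mem_univ, true_and, List.mem_toFinset, List.mem_filter,
    List.mem_finRange, List.all_eq_true, decide_eq_true_eq, forall_true_left, Det, dot,
    List.sum_ofFn]

theorem SDet_pf (hFK : SFK) : SDet := by
  intro v hv
  let a : Fin 4 → ZMod 2 := ![v 7, v 11, v 6 + v 7, v 5 + v 7]
  let k : F12 := fun τ => ∑ i, a i * kv i τ
  have hk : InK k := ⟨a, fun _ => rfl⟩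
  have h2 : ∀ x : ZMod 2, x + x = 0 := by decide
  have hz : ∀ x y : ZMod 2, x + (y + (x + y)) = 0 := by decide
  let u : F12 := v + k
  have hu : u = ![u 0, u 1, u 2, u 3, u 4, 0, 0, 0, u 8, u 9, u 10, 0] := by
    have h5 : u 5 = 0 := by
      simp [u, k, a, kv, Fin.sum_univ_four, hz]
    have h6 : u 6 = 0 := by
      simp [u, k, a, kv, Fin.sum_univ_four, hz]
    have h7 : u 7 = 0 := by
      simp [u, k, a, kv, Fin.sum_univ_four, h2]
    have h11 : u 11 = 0 := by
      simp [u, k, a, kv, Fin.sum_univ_four, h2]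
    funext τ
    fin_cases τ <;> first | rfl | exact h5 | exact h6 | exact h7 | exact h11
  have hdet : ∀ σ, Det σ v ↔ Det σ u := by
    intro σ
    have h0 := (hFK.1 k hk).1 σ
    unfold Det at h0 ⊢
    simp only [u, xDet_add, h0, add_zero]
  rw [filter_congr fun σ _ => hdet σ, xDet_card, hu]
  rcases xDet_fin (u 0) (u 1) (u 2) (u 3) (u 4) (u 8) (u 9) (u 10) with h | h
  · exfalso
    apply hv
    obtain ⟨h0, h1, h2', h3, h4, h8, h9, h10⟩ := h
    rw [h0, h1, h2', h3, h4, h8, h9, h10] at hu
    refine ⟨a, fun τ => ?_⟩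
    have h : v τ + k τ = 0 := by
      have := congrFun hu τ
      rw [show v τ + k τ = u τ from rfl, this]
      fin_cases τ <;> rfl
    have h' : v τ = k τ := by
      calc v τ = v τ + (k τ + k τ) := by rw [h2, add_zero]
        _ = k τ := by rw [← add_assoc, h, zero_add]
    exact h'
  · exact h

end Pool.Agent.MP_e23604_nt.U.Bm
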