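import Mathlib

/-!
The universal family in the final statement.
-/

namespace Pool.Agent.MP_e23604_nt.U

/-- The curve y^2 = x (x - A) (x - B), A = (z0 - z1)(z2 - z3), B = (z0 - z3)(z2 - z1). -/
def EZ (z : Fin 4 → ℤ) : WeierstrassCurve ℚ :=
  ⟨0, -(((z 0 - z 1) * (z 2 - z 3) + (z 0 - z 3) * (z 2 - z 1) : ℤ) : ℚ), 0,
    (((z 0 - z 1) * (z 2 - z 3) * ((z 0 - z 3) * (z 2 - z 1)) : ℤ) : ℚ), 0⟩

end Pool.Agent.MP_e23604_nt.U
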